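import Mathlib
import Pool.Agent.H386R2.Artin.Final

/-!
Artin's primitive root conjecture for almost all primes `q ≤ y`, and for almost all multiples `m q` of
a fixed integer `m`, as soon as `y ≥ (log x)^(2+δ)`.
-/

namespace Pool.Agent.Results.MP_991e92_nt.AlmostAllPrimes
open Finset Pool.Agent.H386R2.Artin

theorem result : ∀ δ : ℝ, 0 < δ → ∃ c : ℝ, 0 < c ∧ ∀ ε : ℝ, 0 < ε → ∃ x₀ : ℕ,
    ∀ x : ℕ, x₀ ≤ x → ∀ y : ℕ, (Real.log x) ^ (2 + δ) ≤ (y : ℝ) → y ≤ x →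
      ∀ m : ℤ, m ≠ 0 → Real.log |(m : ℝ)| ≤ √x →
        ∃ G : Finset ℕ, G ⊆ (range (y + 1)).filter Nat.Prime ∧
          (Nat.primeCounting y : ℝ) * (1 - 1 / (Real.log x) ^ c) ≤ #G ∧
          ∀ q ∈ G, |(NA (m * (q : ℤ)) x : ℝ) / Nat.primeCounting x - artinC| ≤ ε := by
  classical
  intro δ hδ
  obtain ⟨c, hc, h⟩ := primes_holds δ hδ
  refine ⟨c, hc, fun ε hε => ?_⟩
  obtain ⟨x₀, hx₀⟩ := h ε hε
  refine ⟨x₀, fun x hx y hy hyx m hm hmx => ?_⟩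
  have h1 := hx₀ x hx y hy hyx m hm hmx
  refine ⟨PP y \ ExP ε x y m, sdiff_subset, ?_, ?_⟩
  · have h2 : #(PP y) ≤ #(PP y \ ExP ε x y m) + #(ExP ε x y m) := by
      have := le_card_sdiff (ExP ε x y m) (PP y)
      omega
    have h3 : (#(PP y) : ℝ) ≤ (#(PP y \ ExP ε x y m) : ℝ) + (#(ExP ε x y m) : ℝ) := by
      exact_mod_cast h2
    rw [Pool.Agent.H386R2.Artin.card_PP] at h3
    have h4 : (Nat.primeCounting y : ℝ) * (1 - 1 / (Real.log x) ^ c) =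
        Nat.primeCounting y - (Nat.primeCounting y : ℝ) / (Real.log x) ^ c := by ring
    rw [h4]
    linarith
  · intro q hq
    rw [mem_sdiff, ExP, mem_filter, not_and] at hq
    exact not_lt.1 (hq.2 hq.1)

end Pool.Agent.Results.MP_991e92_nt.AlmostAllPrimes
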