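import Mathlib
import Pool.Agent.H771R4.SE.AllX2

set_option autoImplicit false

/-! # Artin's density formula with at most `N ^ θ` exceptions, for every `θ > 1 / 2`

Let `1 / 2 < θ < 1`, `C > 1` and `C (2 θ - 1) > θ (1 - θ)` (every `C > 1` is allowed if
`θ ≥ 0.6181`).  There is `c > 0` such that, for every nonzero integer `D` (for instance `1` or `-1`)
and all `ε > 0`, for all large `N`, all but at most `N ^ θ` of the integers `n ≤ N` have the
following property: for EVERY `x` with `N ^ C ≤ x ≤ exp ((log N) ^ (1 + c))` the number of primes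
`p ≤ x` for which `D n` is a primitive root differs by at most `ε π(x)` from `A π(x)`, where `A` is
Artin's constant. -/

namespace Pool.Agent.Results.MP_991e92_nt.FewExceptions

open Finset Classical

theorem result (θ C : ℝ) (hθ : 1 / 2 < θ) (hθ1 : θ < 1) (hC : 1 < C)
    (hCθ : θ * (1 - θ) < C * (2 * θ - 1)) :
    ∃ c : ℝ, 0 < c ∧ ∀ (D : ℤ), D ≠ 0 → ∀ (ε : ℝ), 0 < ε → ∃ N₀ : ℕ, ∀ N : ℕ, N₀ ≤ N →
      (((Finset.Icc 1 N).filter (fun n : ℕ => ∃ x : ℕ, (N : ℝ) ^ C ≤ x ∧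
        (x : ℝ) ≤ Real.exp ((Real.log N) ^ (1 + c)) ∧
        ε * (Nat.primeCounting x : ℝ) <
          |((((Finset.range (x + 1)).filter (fun p : ℕ => p.Prime ∧
              orderOf ((D * (n : ℤ) : ℤ) : ZMod p) = p - 1)).card : ℕ) : ℝ) -
            (∏' p : Nat.Primes, (1 - 1 / (((p : ℕ) : ℝ) * (((p : ℕ) : ℝ) - 1)))) *
              (Nat.primeCounting x : ℝ)|)).card : ℝ) ≤ (N : ℝ) ^ θ := by
  obtain ⟨c, hc, h⟩ := Pool.Agent.H771R4.SE.allX2 θ C hθ hθ1 hC hCθ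
  refine ⟨c, hc, fun D hD ε hε => ?_⟩
  obtain ⟨N₁, h₁⟩ := h (Pool.Agent.H771R4.SE.dLin D hD) ε hε
  refine ⟨N₁, fun N hN => ?_⟩
  refine le_trans (le_of_eq ?_) (h₁ N hN)
  unfold Pool.Agent.H771R4.SE.badY Pool.Agent.H771R4.SE.cntE
  simp only [Pool.Agent.H771R4.SE.dLin, Pool.Agent.H386R2.Artin.artinC, Int.cast_mul,
    Int.cast_natCast]

end Pool.Agent.Results.MP_991e92_nt.FewExceptions
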