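import Pool.Agent.H442R2.AO.Asm

/-!
Multiplicative orders beyond the square root barrier for all but boundedly many bases.
-/

namespace Pool.Agent.Results.MP_991e92_nt.OrdersAllButFew

open Finset

/-- multiplicatively independent integers: no nontrivial product of integral powers is `1` -/
def MulIndep {K : ℕ} (a : Fin K → ℤ) : Prop :=
  (∀ i, a i ≠ 0) ∧ ∀ m : Fin K → ℤ, ∏ i, (a i : ℚ) ^ (m i) = 1 → m = 0

/-- the primes `p ≤ x` -/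
def primesUpTo (x : ℕ) : Finset ℕ := (Icc 1 x).filter Nat.Prime

/-- There is `C` such that for all `δ, κ ∈ (0, 1]` and `K ≥ C/(κ³δ²)`, for large `x`: among any `K`
multiplicatively independent integers of size at most `exp(x^η)` there is one, `a`, whose order
modulo `p` exceeds `p^(1-δ)` for all but `κ π(x)` of the primes `p ≤ x`, `p ∤ a`. -/
theorem result : ∃ C : ℝ, 0 < C ∧ ∀ δ κ : ℝ, 0 < δ → δ ≤ 1 → 0 < κ → κ ≤ 1 →
    ∀ K : ℕ, C / (κ ^ 3 * δ ^ 2) ≤ K → ∃ η : ℝ, 0 < η ∧ ∃ x₀ : ℕ, ∀ x : ℕ, x₀ ≤ x →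
    ∀ a : Fin K → ℤ, MulIndep a → (∀ i, |(a i : ℝ)| ≤ Real.exp ((x : ℝ) ^ η)) →
    ∃ i, (((primesUpTo x).filter (fun p : ℕ => ¬ (p : ℤ) ∣ a i ∧
        (orderOf (a i : ZMod p) : ℝ) ≤ (p : ℝ) ^ (1 - δ))).card : ℝ) ≤
      κ * (primesUpTo x).card := by
  obtain ⟨C, hC, h⟩ := Pool.Agent.H442R2.AO.FI_thm
  refine ⟨C, hC, ?_⟩
  intro δ κ h1 h2 h3 h4 K hK
  obtain ⟨η, hη, x₀, hx⟩ := h δ κ h1 h2 h3 h4 K hK
  exact ⟨η, hη, x₀, fun x hxx a ha hb => hx x hxx a ha hb⟩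

end Pool.Agent.Results.MP_991e92_nt.OrdersAllButFew
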