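import Mathlib
import Pool.Agent.H730R2.AB.Final
import Pool.Agent.H730R2.AB.LocalSq

set_option autoImplicit false

/-! # Artin's density with its correction factor for almost all integers with a given squarefree part

For a fixed squarefree `D ≡ 1 mod 4`, `D ≠ 1`, and every `ε, η > 0` there are `c > 0` and `X` such
that, for all large `M`, all but at most `η M` of the integers `1 ≤ m ≤ M` have the following
property: for EVERY `x` with `X ≤ x ≤ exp (M ^ c)` the number of primes `p ≤ x` for which `D m ^ 2`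
is a primitive root differs by at most `ε π(x)` from the predicted density (with the correction
factor of the squarefree part `D`) times `π(x)`. -/

namespace Pool.Agent.Results.MP_991e92_nt.SquareClassLongRange

open Filter Finset Classical

theorem result (D : ℤ) (hD : Squarefree D) (hD4 : D % 4 = 1) (hD1 : D ≠ 1) (ε η : ℝ) (hε : 0 < ε)
    (hη : 0 < η) :
    ∃ c : ℝ, 0 < c ∧ ∃ X : ℕ, ∀ᶠ M : ℕ in atTop,
      (((Finset.Icc 1 M).filter (fun m : ℕ => ∃ x : ℕ, X ≤ x ∧
          (x : ℝ) ≤ Real.exp ((M : ℝ) ^ c) ∧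
          ε * (Nat.primeCounting x : ℝ) <
            |((((Finset.range (x + 1)).filter (fun p : ℕ => p.Prime ∧
                  orderOf ((D * (m : ℤ) ^ 2 : ℤ) : ZMod p) = p - 1)).card : ℕ) : ℝ) -
              ((1 - ((ArithmeticFunction.moebius D.natAbs : ℤ) : ℝ) *
                    ∏ q ∈ D.natAbs.primeFactors, (1 / ((q : ℝ) ^ 2 - (q : ℝ) - 1))) *
                 ∏' p : Nat.Primes, (1 - 1 / (((p : ℕ) : ℝ) * (((p : ℕ) : ℝ) - 1)))) *
                (Nat.primeCounting x : ℝ)|)).card : ℝ) ≤ η * M := by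
  obtain ⟨c, hc, X, hX⟩ := Pool.Agent.H730R2.AB.final Pool.Agent.H730R2.AB.localSq D hD hD4 hD1
    ε η hε hη
  refine ⟨c, hc, X, ?_⟩
  filter_upwards [hX] with M hM
  refine le_trans (le_of_eq ?_) hM
  unfold Pool.Agent.H730R2.AA.badAll Pool.Agent.H730R2.AA.cnt Pool.Agent.H730R2.AA.dens
  congr!

end Pool.Agent.Results.MP_991e92_nt.SquareClassLongRange
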